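import Pool.Agent.H466.HE.SB
import Pool.Agent.H466.HP.H1

/-!
# S_ZFG: no zero, by the saddle point method on a vertical line
-/

set_option autoImplicit false

namespace Pool.Agent.H955.HE

open Complex MeasureTheory Set Filter Topology

/-- the Gaussian transform of a Laplace transform, with complex frequency -/
theorem gauss_laplace {g : ℝ → ℂ} (hg : ∀ a : ℂ, Integrable fun u : ℝ => g u * cexp (a * u))
    {μ : ℝ} (hμ : 0 < μ) (z p : ℂ) :
    ∫ x : ℝ, (∫ u : ℝ, g u * cexp ((z + x * I) * u)) * (cexp (-(I * x * p)) *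
        cexp (-(1 / (4 * μ) : ℂ) * x ^ 2)) =
      (Real.pi / (1 / (4 * μ) : ℂ)) ^ (1 / 2 : ℂ) * cexp (-(μ * p ^ 2)) *
        ∫ u : ℝ, g u * cexp (-(μ : ℂ) * u ^ 2 + (z + 2 * μ * p) * u) := by
  have hb : 0 < ((1 / (4 * μ) : ℂ)).re := by
    have : (1 / (4 * μ) : ℂ) = ((1 / (4 * μ) : ℝ) : ℂ) := by push_cast; rfl
    rw [this, ofReal_re]
    positivity
  have hμc : (μ : ℂ) ≠ 0 := ofReal_ne_zero.2 hμ.ne'
  -- the Gaussian integral
  have hgauss : ∀ u : ℝ, ∫ x : ℝ, cexp (I * (u - p) * x) * cexp (-(1 / (4 * μ) : ℂ) * x ^ 2) =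
      (Real.pi / (1 / (4 * μ) : ℂ)) ^ (1 / 2 : ℂ) * cexp (-(μ * (u - p) ^ 2)) := by
    intro u
    have h := fourierIntegral_gaussian hb ((u : ℂ) - p)
    rw [h]
    congr 2
    field_simp
  have hint : Integrable (Function.uncurry fun (x u : ℝ) => (g u * cexp ((z + x * I) * u)) *
      (cexp (-(I * x * p)) * cexp (-(1 / (4 * μ) : ℂ) * x ^ 2))) (volume.prod volume) := by
    have h1 : Integrable fun x : ℝ => cexp (-(1 / (4 * μ) : ℂ) * x ^ 2 + (-(I * p)) * x + 0) :=
      integrable_cexp_quadratic hb _ _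
    have h2 := h1.mul_prod (hg z)
    have h3 : Continuous fun y : ℝ × ℝ => cexp (I * (y.1 * y.2)) := by fun_prop
    have h4 := h2.bdd_mul (c := 1) h3.aestronglyMeasurable (Eventually.of_forall fun y => by
      have : I * ((y.1 : ℂ) * y.2) = ((y.1 * y.2 : ℝ) : ℂ) * I := by push_cast; ring
      rw [this, Complex.norm_exp_ofReal_mul_I])
    refine h4.congr (Eventually.of_forall fun y => ?_)
    simp only [Function.uncurry]
    have e1 : cexp ((z + y.1 * I) * y.2) = cexp (z * y.2) * cexp (I * (y.1 * y.2)) := by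
      rw [← Complex.exp_add]; congr 1; ring
    have e2 : cexp (-(1 / (4 * μ) : ℂ) * y.1 ^ 2 + (-(I * p)) * y.1 + 0) =
        cexp (-(I * y.1 * p)) * cexp (-(1 / (4 * μ) : ℂ) * y.1 ^ 2) := by
      rw [← Complex.exp_add]; congr 1; ring
    rw [e1, e2]
    ring
  simp_rw [← integral_mul_const]
  rw [integral_integral_swap hint, ← integral_const_mul]
  refine integral_congr_ae (Eventually.of_forall fun u => ?_)
  simp only
  have e1 : (fun x : ℝ => g u * cexp ((z + x * I) * u) * (cexp (-(I * x * p)) *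
      cexp (-(1 / (4 * μ) : ℂ) * x ^ 2))) = fun x : ℝ => (g u * cexp (z * u)) *
        (cexp (I * (u - p) * x) * cexp (-(1 / (4 * μ) : ℂ) * x ^ 2)) := by
    funext x
    have : cexp ((z + x * I) * u) = cexp (z * u) * cexp (I * u * x) := by
      rw [← Complex.exp_add]; congr 1; ring
    rw [this]
    have h3 : cexp (I * (u - p) * x) = cexp (I * u * x) * cexp (-(I * x * p)) := by
      rw [← Complex.exp_add]; congr 1; ring
    rw [h3]
    ring
  rw [e1, integral_const_mul, hgauss]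
  have e2 : cexp (-(μ : ℂ) * u ^ 2 + (z + 2 * μ * p) * u) =
      cexp (z * u) * cexp (-(μ * (u - p) ^ 2)) * cexp (μ * p ^ 2) := by
    rw [← Complex.exp_add, ← Complex.exp_add]; congr 1; ring
  rw [e2]
  have e3 : cexp (-(μ * p ^ 2)) * cexp (μ * p ^ 2) = 1 := by
    rw [← Complex.exp_add]; simp
  linear_combination (-(g u * cexp (z * u)) * (Real.pi / (1 / (4 * μ) : ℂ)) ^ (1 / 2 : ℂ) *
    cexp (-(μ * (u - p) ^ 2))) * e3

/-- the local behaviour: `F (z + i x) e^{-i x p} / F z` is near one -/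
theorem near_one {F P : ℂ → ℂ} (hder : ∀ w, F w ≠ 0 → HasDerivAt F (F w * P w) w) {z : ℂ}
    {k r : ℝ} (hk : 0 ≤ k) (hne : ∀ x : ℝ, |x| ≤ r → F (z + x * I) ≠ 0)
    (hP : ∀ x : ℝ, |x| ≤ r → ‖P (z + x * I) - P z‖ ≤ k * |x|) (x : ℝ) (hx : |x| ≤ r) :
    ‖F (z + x * I) * cexp (-(I * x * P z)) / F z - 1‖ ≤ Real.exp (k * x ^ 2) - 1 := by
  have hz : F z ≠ 0 := by
    have h := hne 0 (by rw [abs_zero]; exact (abs_nonneg x).trans hx)
    simpa using h
  have hr : 0 ≤ r := (abs_nonneg x).trans hx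
  -- the version on `[0, y]`, in both directions
  have main : ∀ (e : ℝ), |e| = 1 → ∀ y : ℝ, 0 ≤ y → y ≤ r →
      ‖F (z + (e * y : ℝ) * I) * cexp (-(I * (e * y : ℝ) * P z)) / F z - 1‖ ≤
        Real.exp (k * y ^ 2) - 1 := by
    intro e he y hy0 hy
    let f : ℝ → ℂ := fun t => F (z + (e * t : ℝ) * I) * cexp (-(I * (e * t : ℝ) * P z)) / F z - 1
    let f' : ℝ → ℂ := fun t => (e * I * (P (z + (e * t : ℝ) * I) - P z)) *
      (F (z + (e * t : ℝ) * I) * cexp (-(I * (e * t : ℝ) * P z)) / F z)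
    have habs : ∀ t : ℝ, 0 ≤ t → |e * t| = t := by
      intro t ht
      rw [abs_mul, he, one_mul, abs_of_nonneg ht]
    have hd : ∀ t : ℝ, 0 ≤ t → t ≤ r → HasDerivAt f (f' t) t := by
      intro t ht0 ht
      have h1 : HasDerivAt (fun t : ℝ => z + ((e * t : ℝ) : ℂ) * I) ((e : ℂ) * I) t := by
        have h2 : HasDerivAt (fun t : ℝ => ((e * t : ℝ) : ℂ)) ((e : ℂ)) t := by
          have := ((hasDerivAt_id t).const_mul e).ofReal_comp
          simpa using this
        exact (h2.mul_const I).const_add z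
      have h2 := (hder (z + ((e * t : ℝ) : ℂ) * I) (hne (e * t) (by rw [habs t ht0]; exact ht)))
      have h3 : HasDerivAt (fun t : ℝ => F (z + ((e * t : ℝ) : ℂ) * I))
          (F (z + ((e * t : ℝ) : ℂ) * I) * P (z + ((e * t : ℝ) : ℂ) * I) * ((e : ℂ) * I)) t :=
        HasDerivAt.comp t h2 h1
      have h4 : HasDerivAt (fun t : ℝ => cexp (-(I * ((e * t : ℝ) : ℂ) * P z)))
          (cexp (-(I * ((e * t : ℝ) : ℂ) * P z)) * (-(I * (e : ℂ) * P z))) t := by
        have h5 : HasDerivAt (fun t : ℝ => ((e * t : ℝ) : ℂ)) ((e : ℂ)) t := by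
          have := ((hasDerivAt_id t).const_mul e).ofReal_comp
          simpa using this
        exact (((h5.const_mul I).mul_const (P z)).neg).cexp
      have h5 := ((h3.mul h4).div_const (F z)).sub_const 1
      refine h5.congr_deriv ?_
      simp only [f']
      ring
    have hb := norm_le_gronwallBound_of_norm_deriv_right_le (f := f) (f' := f') (δ := 0)
      (K := k * y) (ε := k * y) (a := 0) (b := y)
      (fun t ht => ((hd t ht.1 (ht.2.trans hy)).continuousAt).continuousWithinAt)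
      (fun t ht => (hd t ht.1 (ht.2.le.trans hy)).hasDerivWithinAt)
      (by
        have : f 0 = 0 := by
          simp only [f]
          simp [hz]
        rw [this, norm_zero])
      (fun t ht => by
        have h1 : ‖P (z + ((e * t : ℝ) : ℂ) * I) - P z‖ ≤ k * y := by
          refine (hP (e * t) (by rw [habs t ht.1]; exact ht.2.le.trans hy)).trans ?_
          rw [habs t ht.1]
          exact mul_le_mul_of_nonneg_left ht.2.le hk
        have h2 : F (z + ((e * t : ℝ) : ℂ) * I) * cexp (-(I * ((e * t : ℝ) : ℂ) * P z)) / F z =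
            f t + 1 := by simp only [f]; ring
        simp only [f']
        rw [h2, norm_mul, norm_mul, norm_mul, norm_I, mul_one, Complex.norm_real,
          Real.norm_eq_abs, he, one_mul]
        calc _ ≤ (k * y) * (‖f t‖ + 1) := by
              refine mul_le_mul h1 ((norm_add_le _ _).trans (by rw [norm_one])) (norm_nonneg _)
                (by positivity)
          _ = _ := by ring)
      y (right_mem_Icc.2 hy0)
    have hg : gronwallBound 0 (k * y) (k * y) (y - 0) = Real.exp (k * y ^ 2) - 1 := by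
      unfold gronwallBound
      split_ifs with h
      · rw [sub_zero, zero_add, h, zero_mul]
        have : k * y ^ 2 = 0 := by
          rw [pow_two, ← mul_assoc, h, zero_mul]
        rw [this, Real.exp_zero, sub_self]
      · rw [zero_mul, zero_add, div_self h, one_mul, sub_zero]
        congr 2
        ring
    rw [hg] at hb
    exact hb
  rcases le_total 0 x with h | h
  · have h1 := main 1 (by simp) x h ((le_abs_self x).trans hx)
    simpa using h1
  · have h1 := main (-1) (by simp) (-x) (by linarith) ((neg_le_abs x).trans hx)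
    simpa using h1

/-- the fixed point -/
theorem fixed {P : ℂ → ℂ} {μ L s : ℝ} {z : ℂ} (hμ : 0 < μ) (hs : 0 < s)
    (h1 : ∀ w : ℂ, ‖w - (z - (μ * L : ℝ))‖ ≤ s → 2 * μ * ‖P w - (L / 2 : ℝ)‖ ≤ s / 4)
    (h2 : ∀ w w' : ℂ, ‖w - (z - (μ * L : ℝ))‖ ≤ s → ‖w' - (z - (μ * L : ℝ))‖ ≤ s →
      ‖P w - P w'‖ ≤ 1 / 16 * ‖w - w'‖ / μ) :
    ∃ w : ℂ, ‖w - (z - (μ * L : ℝ))‖ ≤ s / 4 ∧ z - 2 * μ * P w = w := by
  obtain ⟨zc, hzc⟩ : ∃ zc : ℂ, zc = z - (μ * L : ℝ) := ⟨_, rfl⟩
  rw [← hzc] at h1 h2 ⊢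
  let Φ : ℂ → ℂ := fun w => z - 2 * μ * P w
  have hB : ∀ w ∈ Metric.closedBall zc (s / 4), ‖w - zc‖ ≤ s := fun w hw => by
    have := mem_closedBall_iff_norm.1 hw
    linarith
  have hmaps : MapsTo Φ (Metric.closedBall zc (s / 4)) (Metric.closedBall zc (s / 4)) := by
    intro w hw
    rw [mem_closedBall_iff_norm]
    have e : Φ w - zc = -((2 * μ : ℝ) : ℂ) * (P w - (L / 2 : ℝ)) := by
      simp only [Φ, hzc]
      push_cast
      ring
    rw [e, norm_mul, norm_neg, Complex.norm_real, Real.norm_eq_abs, abs_of_pos (by positivity)]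
    exact h1 w (hB w hw)
  have hcon : ContractingWith (1 / 8 : NNReal) (hmaps.restrict Φ _ _) := by
    refine ⟨by rw [← NNReal.coe_lt_coe]; norm_num, LipschitzWith.of_dist_le_mul ?_⟩
    rintro ⟨w, hw⟩ ⟨w', hw'⟩
    rw [Subtype.dist_eq, Subtype.dist_eq]
    simp only [MapsTo.val_restrict_apply]
    rw [dist_eq_norm, dist_eq_norm]
    have e : Φ w - Φ w' = -((2 * μ : ℝ) : ℂ) * (P w - P w') := by
      simp only [Φ]
      push_cast
      ring
    rw [e, norm_mul, norm_neg, Complex.norm_real, Real.norm_eq_abs, abs_of_pos (by positivity)]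
    have h3 := h2 w w' (hB w hw) (hB w' hw')
    rw [le_div_iff₀ hμ] at h3
    have e2 : ((1 / 8 : NNReal) : ℝ) = 1 / 8 := by norm_num
    rw [e2]
    nlinarith
  obtain ⟨w, hw, hfix, -⟩ := hcon.exists_fixedPoint' Metric.isClosed_closedBall.isComplete hmaps
    (x := zc) (Metric.mem_closedBall_self (by positivity)) (edist_ne_top _ _)
  exact ⟨w, mem_closedBall_iff_norm.1 hw, hfix⟩

/-- the saddle point method -/
theorem zfg_core {F P : ℂ → ℂ} {g : ℝ → ℂ}
    (hg : ∀ a : ℂ, Integrable fun u : ℝ => g u * cexp (a * u))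
    (hF : ∀ w, F w = ∫ u : ℝ, g u * cexp (w * u)) (hc : Continuous F)
    (hder : ∀ w, F w ≠ 0 → HasDerivAt F (F w * P w) w)
    {μ L s : ℝ} {z : ℂ} (hμ : 0 < μ) (hs : 0 < s) (hK : 384 * μ ≤ s ^ 2)
    (h1 : ∀ w : ℂ, ‖w - (z - (μ * L : ℝ))‖ ≤ s → F w ≠ 0 ∧ 2 * μ * ‖P w - (L / 2 : ℝ)‖ ≤ s / 4)
    (h2 : ∀ w w' : ℂ, ‖w - (z - (μ * L : ℝ))‖ ≤ s → ‖w' - (z - (μ * L : ℝ))‖ ≤ s →
      ‖P w - P w'‖ ≤ 1 / 16 * ‖w - w'‖ / μ)
    (h3 : ∀ (w : ℂ) (v : ℝ), ‖w - (z - (μ * L : ℝ))‖ ≤ s / 4 → s / 4 ≤ |v| →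
      ‖F (w + v * I)‖ ≤ ‖F w‖ * Real.exp (v ^ 2 / (8 * μ))) :
    (∫ u : ℝ, g u * cexp (-(μ : ℂ) * u ^ 2 + z * u)) ≠ 0 := by
  obtain ⟨z', hz', hfix⟩ := fixed hμ hs (fun w hw => (h1 w hw).2) h2
  obtain ⟨p, hp⟩ : ∃ p : ℂ, p = P z' := ⟨_, rfl⟩
  rw [← hp] at hfix
  obtain ⟨zc, hzc⟩ : ∃ zc : ℂ, zc = z - (μ * L : ℝ) := ⟨_, rfl⟩
  rw [← hzc] at h1 h2 h3 hz'
  have hz's : ‖z' - zc‖ ≤ s := by linarith
  have hFz : F z' ≠ 0 := (h1 z' hz's).1
  have hpL : 2 * μ * ‖p - (L / 2 : ℝ)‖ ≤ s / 4 := by rw [hp]; exact (h1 z' hz's).2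
  obtain ⟨y0, hy0⟩ : ∃ y0 : ℝ, y0 = 2 * μ * p.im := ⟨_, rfl⟩
  have hy0s : |y0| ≤ s / 4 := by
    have h4 : |p.im| ≤ ‖p - (L / 2 : ℝ)‖ := by
      have := Complex.abs_im_le_norm (p - (L / 2 : ℝ))
      simpa using this
    rw [hy0, abs_mul, abs_of_pos (by positivity : 0 < 2 * μ)]
    exact (mul_le_mul_of_nonneg_left h4 (by positivity)).trans hpL
  obtain ⟨z2, hz2⟩ : ∃ z2 : ℂ, z2 = z' + y0 * I := ⟨_, rfl⟩
  have hz2c : ‖z2 - zc‖ ≤ s / 4 := by
    have e : z2 - zc = -((2 * μ * (p.re - L / 2) : ℝ) : ℂ) := by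
      rw [hz2, hzc, ← hfix, hy0]
      apply Complex.ext
      · simp
        ring
      · simp
    rw [e, norm_neg, Complex.norm_real, Real.norm_eq_abs, abs_mul,
      abs_of_pos (by positivity : 0 < 2 * μ)]
    have h4 : |p.re - L / 2| ≤ ‖p - (L / 2 : ℝ)‖ := by
      have := Complex.abs_re_le_norm (p - (L / 2 : ℝ))
      simpa using this
    exact (mul_le_mul_of_nonneg_left h4 (by positivity)).trans hpL
  -- the normalized function
  obtain ⟨G, hG⟩ : ∃ G : ℝ → ℂ, ∀ x, G x = F (z' + x * I) * cexp (-(I * x * p)) / F z' :=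
    ⟨fun x => F (z' + x * I) * cexp (-(I * x * p)) / F z', fun _ => rfl⟩
  have hin : ∀ x : ℝ, |x| ≤ 3 * s / 4 → ‖z' + x * I - zc‖ ≤ s := by
    intro x hx
    have e : z' + x * I - zc = (z' - zc) + x * I := by ring
    rw [e]
    refine (norm_add_le _ _).trans ?_
    rw [norm_mul, norm_I, mul_one, Complex.norm_real, Real.norm_eq_abs]
    linarith
  have hnear : ∀ x : ℝ, |x| ≤ 3 * s / 4 → ‖G x - 1‖ ≤ Real.exp (x ^ 2 / (16 * μ)) - 1 := by
    intro x hx
    have h4 := near_one hder (z := z') (k := 1 / (16 * μ)) (r := 3 * s / 4) (by positivity)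
      (fun x hx => (h1 _ (hin x hx)).1) (fun x hx => by
        refine (h2 _ _ (hin x hx) hz's).trans (le_of_eq ?_)
        rw [add_sub_cancel_left, norm_mul, norm_I, mul_one, Complex.norm_real, Real.norm_eq_abs]
        field_simp) x hx
    rw [← hp, ← hG] at h4
    refine h4.trans (le_of_eq ?_)
    congr 2
    field_simp
  have hfar : ∀ x : ℝ, s / 2 ≤ |x - y0| →
      ‖G x‖ * Real.exp (-(1 / (4 * μ)) * x ^ 2) ≤ Real.exp (-(x - y0) ^ 2 / (8 * μ)) := by
    intro x hx
    have h4 : ‖F (z' + x * I)‖ ≤ ‖F z2‖ * Real.exp ((x - y0) ^ 2 / (8 * μ)) := by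
      have h5 := h3 z2 (x - y0) hz2c (by linarith)
      have e : z2 + ((x - y0 : ℝ) : ℂ) * I = z' + x * I := by
        rw [hz2]; push_cast; ring
      rwa [e] at h5
    have h5 : ‖G y0‖ ≤ Real.exp (y0 ^ 2 / (16 * μ)) := by
      have h6 := hnear y0 (by linarith)
      have h7 := norm_sub_norm_le (G y0) 1
      rw [norm_one] at h7
      linarith
    have hexp : ∀ x : ℝ, ‖cexp (-(I * x * p))‖ = Real.exp (x * p.im) := by
      intro x
      rw [Complex.norm_exp]
      congr 1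
      simp
    have h6 : ‖F z2‖ ≤ Real.exp (y0 ^ 2 / (16 * μ)) * ‖F z'‖ * Real.exp (-(y0 * p.im)) := by
      have e : ‖F z2‖ = ‖G y0‖ * ‖F z'‖ * Real.exp (-(y0 * p.im)) := by
        rw [hG, norm_div, norm_mul, hexp, ← hz2, div_mul_cancel₀ _ (norm_ne_zero_iff.2 hFz),
          mul_assoc, ← Real.exp_add, add_neg_cancel, Real.exp_zero, mul_one]
      rw [e]
      gcongr
    have h7 : ‖G x‖ ≤ Real.exp (y0 ^ 2 / (16 * μ)) * Real.exp (-(y0 * p.im)) *
        Real.exp ((x - y0) ^ 2 / (8 * μ)) * Real.exp (x * p.im) := by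
      rw [hG, norm_div, norm_mul, hexp, div_le_iff₀ (norm_pos_iff.2 hFz)]
      calc ‖F (z' + x * I)‖ * Real.exp (x * p.im)
          ≤ ((Real.exp (y0 ^ 2 / (16 * μ)) * ‖F z'‖ * Real.exp (-(y0 * p.im))) *
              Real.exp ((x - y0) ^ 2 / (8 * μ))) * Real.exp (x * p.im) := by
            gcongr
            exact h4.trans (mul_le_mul_of_nonneg_right h6 (Real.exp_pos _).le)
        _ = _ := by ring
    refine (mul_le_mul_of_nonneg_right h7 (Real.exp_pos _).le).trans ?_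
    rw [← Real.exp_add, ← Real.exp_add, ← Real.exp_add, ← Real.exp_add]
    apply Real.exp_le_exp.2
    have hq : p.im = y0 / (2 * μ) := by rw [hy0]; field_simp
    rw [hq]
    have e : y0 ^ 2 / (16 * μ) + -(y0 * (y0 / (2 * μ))) + (x - y0) ^ 2 / (8 * μ) +
        x * (y0 / (2 * μ)) + -(1 / (4 * μ)) * x ^ 2 =
        -(x - y0) ^ 2 / (8 * μ) - 3 * y0 ^ 2 / (16 * μ) := by
      field_simp
      ring
    rw [e]
    have : 0 ≤ 3 * y0 ^ 2 / (16 * μ) := by positivity
    linarith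
  -- the comparison
  let f : ℝ → ℂ := fun x => G x * (Real.exp (-(1 / (4 * μ)) * x ^ 2) : ℂ)
  let B : ℝ → ℝ := fun x => (Real.exp (-(3 / (16 * μ)) * x ^ 2) - Real.exp (-(1 / (4 * μ)) * x ^ 2)) +
    1 / 7 * Real.exp (-(1 / (16 * μ)) * (x - y0) ^ 2) + 1 / 4 * Real.exp (-(1 / (8 * μ)) * x ^ 2)
  have hB : ∀ x, ‖f x - (Real.exp (-(1 / (4 * μ)) * x ^ 2) : ℂ)‖ ≤ B x := by
    intro x
    have e1 : f x - (Real.exp (-(1 / (4 * μ)) * x ^ 2) : ℂ) =
        (G x - 1) * (Real.exp (-(1 / (4 * μ)) * x ^ 2) : ℂ) := by simp only [f]; ring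
    have e2 : ‖((Real.exp (-(1 / (4 * μ)) * x ^ 2) : ℝ) : ℂ)‖ = Real.exp (-(1 / (4 * μ)) * x ^ 2) := by
      rw [Complex.norm_real, Real.norm_eq_abs, abs_of_pos (Real.exp_pos _)]
    have p1 : 0 ≤ 1 / 7 * Real.exp (-(1 / (16 * μ)) * (x - y0) ^ 2) := by positivity
    have p2 : 0 ≤ 1 / 4 * Real.exp (-(1 / (8 * μ)) * x ^ 2) := by positivity
    rcases lt_or_ge |x - y0| (s / 2) with h | h
    · have hx : |x| ≤ 3 * s / 4 := by
        have := abs_sub_abs_le_abs_sub x y0
        linarith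
      have h4 := hnear x hx
      rw [e1, norm_mul, e2]
      have h5 : (Real.exp (x ^ 2 / (16 * μ)) - 1) * Real.exp (-(1 / (4 * μ)) * x ^ 2) =
          Real.exp (-(3 / (16 * μ)) * x ^ 2) - Real.exp (-(1 / (4 * μ)) * x ^ 2) := by
        rw [sub_mul, one_mul, ← Real.exp_add]
        congr 2
        field_simp
        ring
      have h6 := mul_le_mul_of_nonneg_right h4 (Real.exp_pos (-(1 / (4 * μ)) * x ^ 2)).le
      rw [h5] at h6
      simp only [B]
      linarith
    · have h4 := hfar x h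
      have h5 : ‖f x‖ = ‖G x‖ * Real.exp (-(1 / (4 * μ)) * x ^ 2) := by
        simp only [f]; rw [norm_mul, e2]
      have h6 : Real.exp (-(x - y0) ^ 2 / (8 * μ)) ≤
          1 / 7 * Real.exp (-(1 / (16 * μ)) * (x - y0) ^ 2) := by
        have hv : s ^ 2 / 4 ≤ (x - y0) ^ 2 := by
          rw [← sq_abs (x - y0)]
          nlinarith
        have e3 : -(x - y0) ^ 2 / (8 * μ) = -((x - y0) ^ 2 / (16 * μ)) +
            -(1 / (16 * μ)) * (x - y0) ^ 2 := by field_simp; ring
        rw [e3, Real.exp_add]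
        refine mul_le_mul_of_nonneg_right ?_ (Real.exp_pos _).le
        have h7 : 6 ≤ (x - y0) ^ 2 / (16 * μ) := by
          rw [le_div_iff₀ (by positivity)]
          linarith
        rw [Real.exp_neg, inv_eq_one_div]
        apply one_div_le_one_div_of_le (by norm_num)
        have := Real.add_one_le_exp ((x - y0) ^ 2 / (16 * μ))
        linarith
      have h8 : Real.exp (-(1 / (4 * μ)) * x ^ 2) ≤ 1 / 4 * Real.exp (-(1 / (8 * μ)) * x ^ 2) := by
        have hx : s / 4 ≤ |x| := by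
          have := abs_sub x y0
          linarith
        have hv : s ^ 2 / 16 ≤ x ^ 2 := by
          rw [← sq_abs x]
          nlinarith
        have e3 : -(1 / (4 * μ)) * x ^ 2 = -(x ^ 2 / (8 * μ)) + -(1 / (8 * μ)) * x ^ 2 := by
          field_simp
          ring
        rw [e3, Real.exp_add]
        refine mul_le_mul_of_nonneg_right ?_ (Real.exp_pos _).le
        have h7 : 3 ≤ x ^ 2 / (8 * μ) := by
          rw [le_div_iff₀ (by positivity)]
          linarith
        rw [Real.exp_neg, inv_eq_one_div]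
        apply one_div_le_one_div_of_le (by norm_num)
        have := Real.add_one_le_exp (x ^ 2 / (8 * μ))
        linarith
      have h9 : Real.exp (-(1 / (4 * μ)) * x ^ 2) ≤ Real.exp (-(3 / (16 * μ)) * x ^ 2) := by
        apply Real.exp_le_exp.2
        have : 1 / (4 * μ) = 3 / (16 * μ) + 1 / (16 * μ) := by field_simp; norm_num
        rw [this]
        have : 0 ≤ 1 / (16 * μ) * x ^ 2 := by positivity
        linarith
      refine (norm_sub_le _ _).trans ?_
      rw [h5, e2]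
      simp only [B]
      linarith
  -- integrals
  have i1 : Integrable fun x : ℝ => Real.exp (-(1 / (4 * μ)) * x ^ 2) :=
    integrable_exp_neg_mul_sq (by positivity)
  have i2 : Integrable fun x : ℝ => Real.exp (-(3 / (16 * μ)) * x ^ 2) :=
    integrable_exp_neg_mul_sq (by positivity)
  have i3 : Integrable fun x : ℝ => Real.exp (-(1 / (8 * μ)) * x ^ 2) :=
    integrable_exp_neg_mul_sq (by positivity)
  have i4 : Integrable fun x : ℝ => Real.exp (-(1 / (16 * μ)) * (x - y0) ^ 2) :=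
    (integrable_exp_neg_mul_sq (by positivity : 0 < 1 / (16 * μ))).comp_sub_right y0
  have iB : Integrable B := ((i2.sub i1).add (i4.const_mul _)).add (i3.const_mul _)
  have hGc : Continuous G := by
    have : G = fun x : ℝ => F (z' + x * I) * cexp (-(I * x * p)) / F z' := funext hG
    rw [this]
    fun_prop
  have hfc : Continuous f := by
    simp only [f]
    fun_prop
  have i0 : Integrable fun x : ℝ => ((Real.exp (-(1 / (4 * μ)) * x ^ 2) : ℝ) : ℂ) := i1.ofReal
  have ifd : Integrable fun x : ℝ => f x - ((Real.exp (-(1 / (4 * μ)) * x ^ 2) : ℝ) : ℂ) := by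
    refine Integrable.mono' iB ?_ (Eventually.of_forall hB)
    exact (hfc.aestronglyMeasurable).sub i0.aestronglyMeasurable
  have hif : Integrable f := by
    have := ifd.add i0
    refine this.congr (Eventually.of_forall fun x => ?_)
    simp
  obtain ⟨S0, hS0⟩ : ∃ S0 : ℝ, S0 = Real.sqrt (4 * Real.pi * μ) := ⟨_, rfl⟩
  have hpi := Real.pi_pos
  have hS0p : 0 < S0 := by rw [hS0]; exact Real.sqrt_pos.2 (by positivity)
  have hS0sq : S0 ^ 2 = 4 * Real.pi * μ := by rw [hS0]; exact Real.sq_sqrt (by positivity)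
  have g1 : ∫ x : ℝ, Real.exp (-(1 / (4 * μ)) * x ^ 2) = S0 := by
    rw [integral_gaussian, hS0]
    congr 1
    field_simp
  have g2 : ∫ x : ℝ, Real.exp (-(3 / (16 * μ)) * x ^ 2) ≤ 6 / 5 * S0 := by
    rw [integral_gaussian]
    apply Real.sqrt_le_iff.2
    refine ⟨by positivity, ?_⟩
    rw [mul_pow, hS0sq]
    have : Real.pi / (3 / (16 * μ)) = 16 / 3 * (Real.pi * μ) := by field_simp
    rw [this]
    have : 0 < Real.pi * μ := by positivity
    nlinarith
  have g3 : ∫ x : ℝ, Real.exp (-(1 / (8 * μ)) * x ^ 2) ≤ 3 / 2 * S0 := by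
    rw [integral_gaussian]
    apply Real.sqrt_le_iff.2
    refine ⟨by positivity, ?_⟩
    rw [mul_pow, hS0sq]
    have : Real.pi / (1 / (8 * μ)) = 8 * (Real.pi * μ) := by field_simp
    rw [this]
    have : 0 < Real.pi * μ := by positivity
    nlinarith
  have g4 : ∫ x : ℝ, Real.exp (-(1 / (16 * μ)) * (x - y0) ^ 2) ≤ 2 * S0 := by
    rw [integral_sub_right_eq_self (fun x => Real.exp (-(1 / (16 * μ)) * x ^ 2)) y0,
      integral_gaussian]
    apply Real.sqrt_le_iff.2
    refine ⟨by positivity, ?_⟩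
    rw [mul_pow, hS0sq]
    have : Real.pi / (1 / (16 * μ)) = 16 * (Real.pi * μ) := by field_simp
    rw [this]
    have : 0 < Real.pi * μ := by positivity
    nlinarith
  have gB : ∫ x, B x = ((∫ x : ℝ, Real.exp (-(3 / (16 * μ)) * x ^ 2)) -
      ∫ x : ℝ, Real.exp (-(1 / (4 * μ)) * x ^ 2)) +
      1 / 7 * (∫ x : ℝ, Real.exp (-(1 / (16 * μ)) * (x - y0) ^ 2)) +
      1 / 4 * ∫ x : ℝ, Real.exp (-(1 / (8 * μ)) * x ^ 2) := by
    simp only [B]
    have j1 : Integrable fun x : ℝ => Real.exp (-(3 / (16 * μ)) * x ^ 2) -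
        Real.exp (-(1 / (4 * μ)) * x ^ 2) := i2.sub i1
    have j2 : Integrable fun x : ℝ => Real.exp (-(3 / (16 * μ)) * x ^ 2) -
        Real.exp (-(1 / (4 * μ)) * x ^ 2) + 1 / 7 * Real.exp (-(1 / (16 * μ)) * (x - y0) ^ 2) :=
      j1.add (i4.const_mul _)
    rw [integral_add j2 (i3.const_mul _), integral_add j1 (i4.const_mul _), integral_sub i2 i1,
      integral_const_mul, integral_const_mul]
  have hne : ∫ x, f x ≠ 0 := by
    intro h0
    have h4 : ∫ x : ℝ, (f x - ((Real.exp (-(1 / (4 * μ)) * x ^ 2) : ℝ) : ℂ)) = -(S0 : ℂ) := by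
      rw [integral_sub hif i0, h0, integral_complex_ofReal, g1, zero_sub]
    have h5 : S0 ≤ ∫ x, B x := by
      calc S0 = ‖∫ x : ℝ, (f x - ((Real.exp (-(1 / (4 * μ)) * x ^ 2) : ℝ) : ℂ))‖ := by
            rw [h4, norm_neg, Complex.norm_real, Real.norm_eq_abs, abs_of_pos hS0p]
        _ ≤ ∫ x, B x := norm_integral_le_of_norm_le iB (Eventually.of_forall hB)
    rw [gB, g1] at h5
    linarith
  intro hzero
  apply hne
  have h4 := gauss_laplace hg hμ z' p
  have e1 : z' + 2 * μ * p = z := by rw [← hfix]; ring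
  rw [e1, hzero, mul_zero] at h4
  have e2 : (fun x : ℝ => (∫ u : ℝ, g u * cexp ((z' + x * I) * u)) * (cexp (-(I * x * p)) *
      cexp (-(1 / (4 * μ) : ℂ) * x ^ 2))) = fun x => F z' * f x := by
    funext x
    rw [← hF]
    simp only [f]
    rw [hG]
    have e3 : cexp (-(1 / (4 * μ) : ℂ) * x ^ 2) = ((Real.exp (-(1 / (4 * μ)) * x ^ 2) : ℝ) : ℂ) := by
      push_cast
      rfl
    rw [e3]
    field_simp
  rw [e2, integral_const_mul] at h4
  exact (mul_eq_zero.1 h4).resolve_left hFz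

open Pool.Agent.H466.HF Pool.Agent.H466.LD Pool.Agent.H466.HP Pool.Agent.H466.HN Pool.Agent.H466.HD
open Pool.Agent.H466.HE
open Pool.Agent.H862.VK (Yz Yz_diff)

theorem zfg : S_ZFG := by
  refine ⟨1 / 16, 384, by norm_num, by norm_num, ?_⟩
  intro μ L s z hμ _ hs hK h1 h2 h3
  obtain ⟨A, hA⟩ := gk_kern
  have hF : ∀ w, LL gk 0 w = ∫ u : ℝ, gk u * cexp (w * u) := by
    intro w
    unfold LL
    refine integral_congr_ae (Eventually.of_forall fun u => ?_)
    simp
  have hg : ∀ a : ℂ, Integrable fun u : ℝ => gk u * cexp (a * u) := by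
    intro a
    refine (hA.integrable 0 a).congr (Eventually.of_forall fun u => ?_)
    simp
  have hc : Continuous (LL gk 0) := by
    have : LL gk 0 = fun z => Yz z / 2 := funext F_Yz
    rw [this]
    exact Yz_diff.continuous.div_const 2
  have h := zfg_core hg hF hc (fun w hw => F_der (Yz_ne_of hw)) hμ hs hK h1 h2 h3
  have e : LL gk (-μ) z = ∫ u : ℝ, gk u * cexp (-(μ : ℂ) * u ^ 2 + z * u) := by
    unfold LL
    refine integral_congr_ae (Eventually.of_forall fun u => ?_)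
    simp
  rw [e]
  exact h

end Pool.Agent.H955.HE
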